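import Pool.Agent.U226.AB.Add

/-!
# If Chow motives over a finite field form an abelian category

`A` is a rigid symmetric monoidal `ℚ`-linear category with `End 1 = ℚ` and with Frobenius data
(`FrobeniusData`): this is what the category of Chow motives over a finite field is known to have
(`K` an algebraic closure of the `ℓ`-adic numbers, `mult M α` the multiplicity of `α` as an
eigenvalue of the geometric Frobenius on the cohomology of `M`, `sign α` the parity of the weight
of `α`; trace formula and Weil conjectures).

* `result`: if `A` is abelian, then `Hom(1, M)` has dimension at most the multiplicity of the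
  eigenvalue `1`; Hom spaces are finite-dimensional; an object without eigenvalues is zero; chains
  of subobjects of `M` have length at most the number `dim M` of eigenvalues; a numerically
  trivial endomorphism `f` of `M` satisfies `f ^ dim M = 0`; if Tate's conjecture holds for `M`,
  no nonzero element of `Hom(1, M)` is numerically trivial; if it holds for all `M`, the category
  is semisimple.
* The first two parts and nilpotence only use that every nonzero morphism out of the unit has a
  cokernel and is a kernel of it; under Tate's conjecture this property is equivalent to the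
  vanishing of the numerically trivial morphisms out of the unit.
-/

namespace Pool.Agent.Results.MP_6c4da4_ag.AbelianBoundsChow

open CategoryTheory MonoidalCategory CategoryTheory.Limits U226.AB

universe v u w

theorem result :
    -- (I) the abelian case
    (∀ (A : Type u) [Category.{v} A] [Abelian A] [Linear ℚ A] [MonoidalCategory A]
      [MonoidalPreadditive A] [MonoidalLinear ℚ A] [SymmetricCategory A] [RightRigidCategory A]
      (K : Type w) [Field K] [CharZero K] (D : FrobeniusData A K), UnitRat A →
      -- the bound for `Hom(1, M)`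
      (∀ M : A, Module.Finite ℚ (𝟙_ A ⟶ M) ∧ Module.finrank ℚ (𝟙_ A ⟶ M) ≤ D.mult M 1) ∧
      -- the bound for `Hom(M, N)`
      (∀ M N : A, Module.Finite ℚ (M ⟶ N) ∧
        Module.finrank ℚ (M ⟶ N) ≤ (D.mult M).sum fun α m => m * D.mult N α) ∧
      -- no phantoms
      (∀ M : A, D.mult M = 0 → IsZero M) ∧
      -- finite length
      (∀ (M : A) (s : LTSeries (Subobject M)), s.length ≤ D.dim M) ∧
      -- numerically trivial endomorphisms are nilpotent
      (∀ (M : A) (f : M ⟶ M), NumTrivial f → iter f (D.dim M) = 0) ∧
      -- Tate's conjecture for `M` kills the numerically trivial classes of `M`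
      (∀ M : A, D.mult M 1 ≤ Module.finrank ℚ ((𝟙_ A ⟶ M) ⧸ numTrivial M) →
        numTrivial M = ⊥) ∧
      -- Tate's conjecture for all objects makes the category semisimple
      ((∀ M : A, D.mult M 1 ≤ Module.finrank ℚ ((𝟙_ A ⟶ M) ⧸ numTrivial M)) →
        ∀ (S M : A) (x : S ⟶ M), Mono x → IsSplitMono x)) ∧
    -- (II) pseudo-abelian categories with normal unit morphisms
    (∀ (A : Type u) [Category.{v} A] [Preadditive A] [Linear ℚ A] [MonoidalCategory A]
      [MonoidalPreadditive A] [MonoidalLinear ℚ A] [SymmetricCategory A] [RightRigidCategory A]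
      [IsIdempotentComplete A]
      (K : Type w) [Field K] [CharZero K] (D : FrobeniusData A K), UnitRat A →
      -- one excess class produces a morphism out of the unit that is not a kernel of a cokernel
      ((∃ M : A, (D.mult M 1 : Cardinal) < Module.rank ℚ (𝟙_ A ⟶ M)) →
        ∃ (N : A) (x : 𝟙_ A ⟶ N), x ≠ 0 ∧ ¬ ∃ (Q : A) (p : N ⟶ Q) (w : x ≫ p = 0),
          Nonempty (IsColimit (CokernelCofork.ofπ p w)) ∧
            Nonempty (IsLimit (KernelFork.ofι x w))) ∧
      (UnitNormal A →
        (∀ M : A, Module.Finite ℚ (𝟙_ A ⟶ M) ∧ Module.finrank ℚ (𝟙_ A ⟶ M) ≤ D.mult M 1) ∧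
        (∀ M : A, D.mult M = 0 → IsZero M) ∧
        (∀ (M : A) (f : M ⟶ M), NumTrivial f → ∃ n, iter f n = 0)) ∧
      ((∀ M : A, D.mult M 1 ≤ Module.finrank ℚ ((𝟙_ A ⟶ M) ⧸ numTrivial M)) →
        (UnitNormal A ↔ ∀ M : A, numTrivial M = ⊥))) := by
  refine ⟨?_, ?_⟩
  · intro A _ _ _ _ _ _ _ _ K _ _ D hu
    have hN : UnitNormal A := unitNormal hu
    refine ⟨fun M => ⟨D.finite hu hN M, D.finrank_le hu hN M⟩,
      fun M N => D.finrank_hom_le hu hN M N, fun M h => D.isZero hu hN h,
      fun M s => D.length_le hu M s, ?_, fun M hT => D.squeeze hu hN M hT, ?_⟩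
    · intro M f hf
      exact D.nil_index hu _ M le_rfl f (D.nilpotent hu hN f hf)
    · intro hT S M x hx
      exact splitMono hu (fun M => D.squeeze hu hN M (hT M)) x
  · intro A _ _ _ _ _ _ _ _ _ K _ _ D hu
    refine ⟨?_, ?_, ?_⟩
    · rintro ⟨M, hM⟩
      by_contra hcon
      have hN : UnitNormal A := by
        intro N x hx
        by_contra h
        exact hcon ⟨N, x, hx, h⟩
      exact absurd (D.rank_le hu hN _ M rfl) (not_le.mpr hM)
    · intro hN
      exact ⟨fun M => ⟨D.finite hu hN M, D.finrank_le hu hN M⟩,
        fun M h => D.isZero hu hN h, fun M f hf => D.nilpotent hu hN f hf⟩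
    · intro hT
      exact ⟨fun hN M => D.squeeze hu hN M (hT M), fun h => unitNormal_of_num hu h⟩

end Pool.Agent.Results.MP_6c4da4_ag.AbelianBoundsChow
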