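import Pool.Agent.U692.AT.Word

/-!
# Chow motives of abelian type over a finite field: abelian iff rational = numerical equivalence

`A` is a rigid symmetric monoidal `ℚ`-linear category with `End 1 = ℚ` and with Frobenius data, as
the category of Chow motives over a finite field, or the category of those of abelian type. The
objects `V` with `TateEnd D V` are those for which the endomorphisms have the dimension predicted by
Tate's conjecture; for `V = h¹(B)(n)`, `B` an abelian variety, this is Tate's theorem.

* (I) `A` abelian. An object with Tate's equality is semisimple and its subobjects and quotients also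
  satisfy Tate's equality. All objects obtained from such objects by subobjects, quotients, direct
  sums and tensor products are semisimple, and numerically trivial morphisms between them are zero.
* (II) If `A` is generated by such objects, then `A` is abelian if and only if numerically trivial
  classes on the tensor products of the generators are zero; and then it is semisimple.

`TensorSemisimple A` (tensor products of semisimple objects are semisimple) is a theorem for these
categories, if they are abelian (Deligne, Chevalley).
-/

namespace Pool.Agent.Results.MP_6c4da4_ag.AbelianIffRationalNumerical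

open CategoryTheory MonoidalCategory CategoryTheory.Limits U226.AB Pool.Agent.U692.AT

universe v u w

theorem result :
    -- (I) abelian categories
    (∀ (A : Type u) [Category.{v} A] [Abelian A] [Linear ℚ A] [MonoidalCategory A]
      [MonoidalPreadditive A] [MonoidalLinear ℚ A] [SymmetricCategory A] [RightRigidCategory A]
      (K : Type w) [Field K] [CharZero K] (D : FrobeniusData A K), UnitRat A →
      -- objects with Tate's equality are semisimple
      (∀ V : A, TateEnd D V → Semisimple V ∧ numTrivial V = ⊥ ∧
        ∀ (S : A) (x : S ⟶ V), Mono x → TateEnd D S ∧ TateEnd D (cokernel x)) ∧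
      -- the objects generated by objects with Tate's equality
      (TensorSemisimple A → ∀ V : A → Prop, (∀ M, V M → TateEnd D M) →
        ∀ M : A, Generated V M → Semisimple M ∧ numTrivial M = ⊥ ∧
          ∀ N : A, Generated V N → ∀ f : M ⟶ N, (∀ g : N ⟶ M, tr (f ≫ g) = 0) → f = 0)) ∧
    -- (II) categories generated by objects with Tate's equality
    (∀ (A : Type u) [Category.{v} A] [Preadditive A] [Linear ℚ A] [MonoidalCategory A]
      [MonoidalPreadditive A] [MonoidalLinear ℚ A] [SymmetricCategory A] [RightRigidCategory A]
      [IsIdempotentComplete A] [HasFiniteProducts A]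
      (K : Type w) [Field K] [CharZero K] (D : FrobeniusData A K), UnitRat A → NilTrace A →
      (IsAbelianCategory A → TensorSemisimple A) →
      ∀ V : A → Prop, (∀ M, V M → TateEnd D M) → (∀ M : A, TensorGenerated V M) →
      (IsAbelianCategory A ↔ ∀ M : A, numTrivial M = ⊥) ∧
      (IsAbelianCategory A ↔ ∀ W : A, Word V W → numTrivial W = ⊥) ∧
      (IsAbelianCategory A → ∀ M : A, Semisimple M)) := by
  refine ⟨?_, ?_⟩
  · intro A _ _ _ _ _ _ _ _ K _ _ D hu
    refine ⟨fun V hV => ⟨semisimple_of_tate hu hV, numTrivial_eq_bot hu (semisimple_of_tate hu hV),
      fun S x hx => tateEnd_sub hu hV x⟩, ?_⟩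
    intro hT V hV M hM
    have h1 := generated_semisimple hu hT hV hM
    exact ⟨h1, numTrivial_eq_bot hu h1, fun N hN f hf =>
      numTrivial_hom D hu h1 (generated_semisimple hu hT hV hN) f hf⟩
  · intro A _ _ _ _ _ _ _ _ _ _ K _ _ D hu hn hT V hV hA
    have h1 : IsAbelianCategory A → ∀ M : A, numTrivial M = ⊥ := fun h M =>
      (semisimple_of_abelian D hu hT hV hA h M).2
    have h2 : (∀ M : A, numTrivial M = ⊥) → IsAbelianCategory A := abelian_of_num D hu hn
    refine ⟨⟨h1, h2⟩, ⟨fun h W _ => h1 h W, fun h => h2 fun M => numTrivial_of_words h (hA M)⟩,
      fun h M => (semisimple_of_abelian D hu hT hV hA h M).1⟩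

end Pool.Agent.Results.MP_6c4da4_ag.AbelianIffRationalNumerical
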