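import Pool.Agent.U407.AB5

/-!
# Abelianness of Chow motives over finite fields: one field and square-zero correspondences

`Strict f` says that `f` has a kernel and a cokernel and that the canonical map from the coimage to
the image is an isomorphism, so a preadditive category with `AllStrict` is what the problem calls
abelian.

Let `C i` be a directed system of pseudo-abelian categories with extensions and restrictions of
scalars, and `L` its union: the Chow motives over the finite fields `k` of characteristic `p` with
coefficients in number fields, and over an algebraic closure with coefficients in an algebraic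
closure. One member `C i₀` (some `k`, coefficients `ℚ`) is a rigid symmetric monoidal `ℚ`-linear
category with `End 1 = ℚ` and with Frobenius data, in which the morphisms modulo numerical
equivalence are regular (theorem of Jannsen). Every object of `C i₀` is a direct summand of an
object in `𝒢` (the twists of the motives of smooth projective varieties over `k`).

* The `C j` and `L` are abelian iff one of them is, iff the numerically trivial endomorphisms `F`
  with `F ≫ F = 0` of the objects in `𝒢` are strict.
* A morphism of `C i` is strict iff its image in `C j` is, iff its image in `L` is.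
* If the numerically trivial morphisms out of the unit of `C i₀` are strict, then every nonzero
  morphism out of the unit is a kernel of its cokernel and numerically trivial endomorphisms are
  nilpotent.
-/

set_option autoImplicit false

namespace Pool.Agent.Results.MP_6c4da4_ag.SquareZeroOverOneField

open CategoryTheory MonoidalCategory CategoryTheory.Limits U226.AB Pool.Agent.U407.AB

universe v u w v' u'

theorem result {I : Type} {C : I → Type u} [∀ i, Category.{v} (C i)]
    [∀ i, Preadditive (C i)] [∀ i, IsIdempotentComplete (C i)] {R : I → I → Prop}
    {E : ∀ i j, R i j → Extension (C i) (C j)} {L : Type u'} [Category.{v'} L] [Preadditive L]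
    [IsIdempotentComplete L]
    -- the union and the directed system
    (P : IsUnion E L) (hdir : ∀ i j, ∃ k, R i k ∧ R j k)
    -- the member with rational coefficients
    (i₀ : I) [Linear ℚ (C i₀)] [MonoidalCategory (C i₀)] [MonoidalPreadditive (C i₀)]
    [MonoidalLinear ℚ (C i₀)] [SymmetricCategory (C i₀)] [RightRigidCategory (C i₀)]
    [HasBinaryBiproducts (C i₀)] {K : Type w} [Field K] [CharZero K]
    (D : FrobeniusData (C i₀) K) (hu : UnitRat (C i₀))
    (reg : ∀ (X Y : C i₀) (f : X ⟶ Y), ∃ g : Y ⟶ X, Num (f ≫ g ≫ f - f))
    {𝒢 : C i₀ → Prop}
    (h𝒢 : ∀ M : C i₀, ∃ (Z : C i₀) (s : M ⟶ Z) (r : Z ⟶ M), 𝒢 Z ∧ s ≫ r = 𝟙 M) :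
    -- the members and the union are abelian iff the criterion over one field holds
    (∀ j, AllStrict (C j) ↔ SquareZeroStrict 𝒢) ∧ (AllStrict L ↔ SquareZeroStrict 𝒢) ∧
    -- strictness of one morphism may be tested in a larger member and in the union
    (∀ (i : I) (X Y : C i) (f : X ⟶ Y),
      (∀ (j : I) (h : R i j), Strict f ↔ Strict ((E i j h).ext.map f)) ∧
      (Strict f ↔ Strict ((P.U i).map f))) ∧
    -- strictness of the numerically trivial morphisms out of the unit gives nilpotence
    ((∀ (M : C i₀) (x : 𝟙_ (C i₀) ⟶ M), Num x → Strict x) →
      UnitNormal (C i₀) ∧ ∀ (M : C i₀) (f : M ⟶ M), Num f → ∃ n, iter f n = 0) := by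
  have : Nonempty I := ⟨i₀⟩
  have h1 := allStrict_iff_square_zero D hu reg h𝒢
  refine ⟨fun j => (main_union P hdir j).symm.trans ((main_union P hdir i₀).trans h1),
    (main_union P hdir i₀).trans h1, fun i X Y f => ⟨fun j h => ?_, fun hf => strict_up P hf,
      fun hf => strict_down P hf⟩, fun h => ?_⟩
  · have := (E i j h).ext_additive
    have := (E i j h).res_additive
    exact ⟨fun hf => map_strict (E i j h).adj' (E i j h).adj hf, fun hf => (E i j h).descend hf⟩
  · have hN : UnitNormal (C i₀) := unitNormal_of_strict hu h
    exact ⟨hN, fun M f hf => D.nilpotent hu hN f hf⟩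

end Pool.Agent.Results.MP_6c4da4_ag.SquareZeroOverOneField
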